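import Pool.Agent.V11259.EMincl

/-!
# Mode 0 and mode 1 two-component even matrix grammars

Over every alphabet with at least two letters the family of languages generated in mode 0 by
two-component even matrix grammars is properly contained in the family generated in mode 1.

Inclusion: each nonterminal gets two copies and dummy rules exchange the copies, so that every
occurrence can be made the leftmost one of its copy.

Strictness: the grammar `dbl c z` doubles its nonterminals in rounds. The end of a round is guessed
and a wrong guess moves the end marker, so that the words `c ^ n z` of its mode 1 language are those
with `n` a power of four. In a mode 0 language which contains `c ^ n z` for infinitely many `n`, these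
`n` contain an infinite arithmetic progression, by amalgamation of runs of vector addition systems
(Dickson's and Higman's lemmas).
-/

namespace Pool.Agent.Results.MP_767d8d_lc.StrictInclusion

open Pool.Agent.V11259.EM

theorem result (T : Type) [Nontrivial T] : Family T false ⊂ Family T true := by
  refine ⟨family_subset T, fun h => ?_⟩
  obtain ⟨c, z, hcz⟩ := exists_pair_ne T
  obtain ⟨N₁, N₂, h1, h2, G, hG⟩ := h (a := Lang (dbl c z) true)
    ⟨P₁, P₂, inferInstance, inferInstance, dbl c z, rfl⟩
  exact not_zero hcz G hG

end Pool.Agent.Results.MP_767d8d_lc.StrictInclusion
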